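import Pool.Agent.H43.G.R_pool_sql_team_seeded_f72693b1.W81.R1.Base

/-!
Diophantine part and elementary exponential sums.
-/

set_option autoImplicit false

namespace Pool.Agent.W81.R1

open Finset
open Pool.Agent.H469R2.NK (e norm_e e_add conj_e e_zero kusmin_landau_mono norm_sum_neg)
open Pool.Agent.H442R2.EHI (sum_e_range e_add_int e_int)

/-- many `l` with `l θ` near an integer -/
lemma arc (x Y : ℕ) (D θ : ℝ) (hD : 1 ≤ D) (hx : 0 < x) (hY : 1 ≤ Y) (L : Finset ℕ)
    (hL : L ⊆ Icc 1 Y) (hLθ : ∀ l ∈ L, ∃ m : ℤ, |l * θ - m| ≤ D / x)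
    (hcard : (Y : ℝ) ≤ 2 * D * L.card) (hxY : 2 * D * Y + 2 * D * D < x) :
    ∃ q : ℕ, 1 ≤ q ∧ (q : ℝ) ≤ 2 * D ∧ ∃ b : ℤ, |θ - b / q| ≤ 2 * D ^ 2 / (x * Y) := by
  classical
  set t := L.card with ht
  have hx0 : (0 : ℝ) < x := by exact_mod_cast hx
  have hY0 : (0 : ℝ) < Y := by exact_mod_cast hY
  have ht0 : 1 ≤ t := by
    rcases Nat.eq_zero_or_pos t with h | h
    · rw [h] at hcard; simp at hcard; linarith
    · exact h
  have ht0' : (0 : ℝ) < t := by exact_mod_cast ht0
  have h0L : 0 ∉ L := by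
    intro h
    have := hL h
    rw [mem_Icc] at this
    omega
  have hcard2 : (range t).card < (insert 0 L).card := by
    rw [card_insert_of_notMem h0L, card_range]; omega
  have hmaps : ∀ l ∈ insert 0 L, l * t / (Y + 1) ∈ range t := by
    intro l hl
    rw [mem_range]
    have hlY : l ≤ Y := by
      rw [mem_insert] at hl
      rcases hl with rfl | h
      · omega
      · have := hL h; rw [mem_Icc] at this; omega
    rw [Nat.div_lt_iff_lt_mul (by omega)]
    nlinarith
  obtain ⟨l, hl, l', hl', hne, heq⟩ := exists_ne_map_eq_of_card_lt_of_maps_to hcard2 hmaps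
  -- order them
  obtain ⟨u, v, hu, hv, huv, hdiv⟩ : ∃ u v, u ∈ insert 0 L ∧ v ∈ insert 0 L ∧ u < v ∧
      u * t / (Y + 1) = v * t / (Y + 1) := by
    rcases lt_or_gt_of_ne hne with h | h
    · exact ⟨l, l', hl, hl', h, heq⟩
    · exact ⟨l', l, hl', hl, h, heq.symm⟩
  have hθ : ∀ w ∈ insert 0 L, ∃ m : ℤ, |w * θ - m| ≤ D / x := by
    intro w hw
    rw [mem_insert] at hw
    rcases hw with rfl | h
    · refine ⟨0, ?_⟩
      simp only [Nat.cast_zero, zero_mul, Int.cast_zero, sub_zero, abs_zero]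
      positivity
    · exact hLθ w h
  obtain ⟨mu, hmu⟩ := hθ u hu
  obtain ⟨mv, hmv⟩ := hθ v hv
  have hqt : (v - u) * t ≤ Y := by
    have h1 : v * t < (v * t / (Y + 1) + 1) * (Y + 1) := by
      have := Nat.lt_mul_div_succ (v * t) (show 0 < Y + 1 by omega)
      linarith [mul_comm (Y + 1) (v * t / (Y + 1) + 1)]
    have h2 : u * t / (Y + 1) * (Y + 1) ≤ u * t := Nat.div_mul_le_self _ _
    rw [hdiv] at h2
    have h3 : v * t < u * t + (Y + 1) := by
      calc v * t < (v * t / (Y + 1) + 1) * (Y + 1) := h1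
        _ = v * t / (Y + 1) * (Y + 1) + (Y + 1) := by ring
        _ ≤ u * t + (Y + 1) := by omega
    rw [Nat.sub_mul]
    omega
  set q := v - u with hq
  have hq1 : 1 ≤ q := by omega
  have hq2 : (q : ℝ) ≤ 2 * D := by
    have h1 : (q : ℝ) * t ≤ 2 * D * t := by
      calc (q : ℝ) * t ≤ Y := by exact_mod_cast hqt
        _ ≤ _ := hcard
    exact le_of_mul_le_mul_right h1 ht0'
  have hq0 : (0 : ℝ) < q := by exact_mod_cast hq1
  have hqθ : |q * θ - ((mv - mu : ℤ) : ℝ)| ≤ 2 * D / x := by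
    have h1 : (q : ℝ) = v - u := by
      rw [hq, Nat.cast_sub huv.le]
    rw [h1]
    push_cast
    have h2 : ((v : ℝ) - u) * θ - (mv - mu) = (v * θ - mv) - (u * θ - mu) := by ring
    rw [h2]
    calc |(v * θ - mv) - (u * θ - mu)| ≤ |v * θ - mv| + |u * θ - mu| := abs_sub _ _
      _ ≤ D / x + D / x := add_le_add hmv hmu
      _ = _ := by ring
  -- a large element
  obtain ⟨w, hw, hwt⟩ : ∃ w ∈ L, t ≤ w := by
    by_contra hcon
    push Not at hcon
    have h1 : L ⊆ Icc 1 (t - 1) := by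
      intro w hw
      have h2 := hL hw
      rw [mem_Icc] at h2 ⊢
      exact ⟨h2.1, by have := hcon w hw; omega⟩
    have h2 := card_le_card h1
    rw [Nat.card_Icc] at h2
    omega
  obtain ⟨mw, hmw⟩ := hLθ w hw
  have hwY : w ≤ Y := by have := hL hw; rw [mem_Icc] at this; exact this.2
  have hw0 : (0 : ℝ) < w := by
    have : 0 < w := by omega
    exact_mod_cast this
  have heq2 : (w : ℤ) * (mv - mu) = mw * q := by
    have h1 : |((w : ℤ) * (mv - mu) - mw * q : ℤ)| < (1 : ℤ) := by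
      have h2 : |(((w : ℤ) * (mv - mu) - mw * q : ℤ) : ℝ)| < 1 := by
        push_cast
        have h3 : (w : ℝ) * (mv - mu) - mw * q = q * (w * θ - mw) - w * (q * θ - (mv - mu)) := by ring
        rw [h3]
        push_cast at hqθ
        calc |q * (w * θ - mw) - w * (q * θ - (mv - mu))|
            ≤ |q * (w * θ - mw)| + |w * (q * θ - (mv - mu))| := abs_sub _ _
          _ = q * |w * θ - mw| + w * |q * θ - (mv - mu)| := by
              rw [abs_mul, abs_mul, abs_of_pos hq0, abs_of_pos hw0]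
          _ ≤ (2 * D) * (D / x) + Y * (2 * D / x) := by
              have : (w : ℝ) ≤ Y := by exact_mod_cast hwY
              gcongr
          _ = (2 * D * Y + 2 * D * D) / x := by ring
          _ < 1 := by rw [div_lt_one hx0]; exact hxY
      exact_mod_cast h2
    have h4 := Int.abs_lt_one_iff.1 h1
    linarith
  refine ⟨q, hq1, hq2, mv - mu, ?_⟩
  have h5 : (((mv - mu : ℤ) : ℝ)) / q = mw / w := by
    rw [div_eq_div_iff hq0.ne' hw0.ne']
    have : (((w : ℤ) * (mv - mu) : ℤ) : ℝ) = ((mw * q : ℤ) : ℝ) := by rw [heq2]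
    push_cast at this ⊢
    linarith
  rw [h5]
  have h6 : θ - mw / w = (w * θ - mw) / w := by field_simp
  rw [h6, abs_div, abs_of_pos hw0]
  have hwt' : (t : ℝ) ≤ w := by exact_mod_cast hwt
  calc |w * θ - mw| / w ≤ (D / x) / w := by gcongr
    _ ≤ (D / x) / t := by gcongr
    _ = D / (x * t) := by rw [div_div]
    _ ≤ 2 * D ^ 2 / (x * Y) := by
        rw [div_le_div_iff₀ (by positivity) (by positivity)]
        calc D * (x * Y) ≤ D * (x * (2 * D * t)) := by gcongr
          _ = 2 * D ^ 2 * (x * t) := by ring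

/-- geometric sums -/
lemma geo (γ c θ : ℝ) (hθ : 0 < θ) (h : ∀ m : ℤ, θ ≤ |γ - m|) (a b : ℕ) :
    ‖∑ n ∈ Ioc a b, e (n * γ + c)‖ ≤ 2 / θ := by
  have hfr1 : θ ≤ Int.fract γ := by
    have := h ⌊γ⌋
    rwa [← Int.fract, abs_of_nonneg (Int.fract_nonneg _)] at this
  have hfr2 : Int.fract γ ≤ 1 - θ := by
    have h1 := h (⌊γ⌋ + 1)
    have h2 : γ - ((⌊γ⌋ + 1 : ℤ) : ℝ) = Int.fract γ - 1 := by
      rw [Int.fract]; push_cast; ring
    rw [h2, abs_of_nonpos (by linarith [Int.fract_lt_one γ])] at h1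
    linarith
  have h3 : ∑ n ∈ Ioc a b, e (n * γ + c) =
      ∑ i ∈ range (b - a), e (((a + 1 + i : ℕ) : ℝ) * γ + c) := by
    have h4 : Ioc a b = (range (b - a)).image (fun i => a + 1 + i) := by
      ext n
      rw [mem_Ioc, mem_image]
      constructor
      · rintro ⟨h1, h2⟩
        exact ⟨n - a - 1, by rw [mem_range]; omega, by omega⟩
      · rintro ⟨i, hi, rfl⟩
        rw [mem_range] at hi
        omega
    rw [h4, sum_image]
    intro i _ j _ hij
    simp only at hij
    omega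
  rw [h3]
  have h5 : ∀ i ∈ range (b - a), e (((a + 1 + i : ℕ) : ℝ) * γ + c) =
      e ((a + 1) * γ + c) * e (i * Int.fract γ) := by
    intro i _
    rw [← e_add]
    have h6 : ((a + 1 + i : ℕ) : ℝ) * γ + c = ((a + 1) * γ + c + i * Int.fract γ) +
        ((i * ⌊γ⌋ : ℤ) : ℝ) := by
      have := Int.floor_add_fract γ
      push_cast
      nlinarith
    rw [h6, e_add_int]
  rw [sum_congr rfl h5, ← mul_sum, norm_mul, norm_e, one_mul]
  apply kusmin_landau_mono (fun i : ℕ => (i : ℝ) * Int.fract γ) (b - a) hθ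
  · intro n _
    push_cast
    linarith
  · intro n _
    push_cast
    linarith
  · intro n _
    push_cast
    linarith

/-- residue classes in an interval -/
lemma class_image (a b q r : ℕ) (hr : r < q) : ∃ n0 c : ℕ, a < n0 ∧
    (∀ i < c, n0 + q * i ≤ b) ∧
    (Ioc a b).filter (fun n => n % q = r) = (range c).image (fun i => n0 + q * i) := by
  have hq : 0 < q := by omega
  set n0 := a + 1 + (r + q * (a + 1) - (a + 1)) % q with hn0
  have hn1 : a < n0 := by omega
  have hmod := Nat.mod_lt (r + q * (a + 1) - (a + 1)) hq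
  have hn2 : n0 ≤ a + q := by omega
  have hn3 : n0 % q = r := by
    rw [hn0, Nat.add_mod_mod]
    have h1 : a + 1 + (r + q * (a + 1) - (a + 1)) = r + q * (a + 1) := by
      have : a + 1 ≤ q * (a + 1) := Nat.le_mul_of_pos_left _ hq
      omega
    rw [h1, Nat.add_mul_mod_self_left, Nat.mod_eq_of_lt hr]
  set c := if n0 ≤ b then (b - n0) / q + 1 else 0 with hc
  have hcb : ∀ i < c, n0 + q * i ≤ b := by
    intro i hi
    rw [hc] at hi
    split_ifs at hi with h
    · have h1 : i ≤ (b - n0) / q := by omega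
      rw [Nat.le_div_iff_mul_le hq, mul_comm] at h1
      omega
    · omega
  refine ⟨n0, c, hn1, hcb, ?_⟩
  ext n
  rw [mem_filter, mem_Ioc, mem_image]
  constructor
  · rintro ⟨⟨h1, h2⟩, h3⟩
    have hcong : n ≡ n0 [MOD q] := by
      rw [Nat.ModEq, h3, hn3]
    have hle : n0 ≤ n := by
      by_contra hcon
      push Not at hcon
      have h4 := (Nat.modEq_iff_dvd' hcon.le).1 hcong
      have h5 := Nat.le_of_dvd (by omega) h4
      omega
    obtain ⟨i, hi⟩ := (Nat.modEq_iff_dvd' hle).1 hcong.symm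
    refine ⟨i, ?_, by omega⟩
    rw [mem_range, hc, if_pos (by omega)]
    have h6 : i ≤ (b - n0) / q := by
      rw [Nat.le_div_iff_mul_le hq, mul_comm]
      omega
    omega
  · rintro ⟨i, hi, rfl⟩
    rw [mem_range] at hi
    have h1 := hcb i hi
    refine ⟨⟨by omega, h1⟩, ?_⟩
    rw [Nat.add_mul_mod_self_left, hn3]

/-- quadratic polynomials without constant term -/
def qf (α : ℕ) (β : ℤ) (n : ℕ) : ℤ := α * (n : ℤ) ^ 2 + β * n

lemma qf_diff (α : ℕ) (β : ℤ) (n l : ℕ) : qf α β (n + l) - qf α β n =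
    2 * α * l * n + (α * (l : ℤ) ^ 2 + β * l) := by
  unfold qf; push_cast; ring

lemma qf_diff_bounds (α : ℕ) (β : ℤ) (x1 n l : ℕ) (hα : 1 ≤ α) (hβ : |β| ≤ x1) (hn : x1 < n) :
    (l : ℤ) * n ≤ qf α β (n + l) - qf α β n ∧
    qf α β (n + l) - qf α β n ≤ (l : ℤ) * (2 * α * n + α * l + x1) := by
  rw [qf_diff]
  have hb := abs_le.1 hβ
  have hα' : (1 : ℤ) ≤ α := by exact_mod_cast hα
  have hn' : (x1 : ℤ) < n := by exact_mod_cast hn
  have hl : (0 : ℤ) ≤ l := by positivity
  have hx : (0 : ℤ) ≤ x1 := by positivity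
  constructor
  · have h1 : (0 : ℤ) ≤ l * (2 * α * n + α * l + β - n) := by
      apply mul_nonneg hl
      nlinarith
    nlinarith
  · have h1 : (0 : ℤ) ≤ l * (x1 - β) := mul_nonneg hl (by linarith)
    nlinarith

/-- `W` near a rational point -/
lemma outer (α : ℕ) (β : ℤ) (x1 x q : ℕ) (b : ℤ) (β' : ℝ) (hα : 1 ≤ α) (hβ : |β| ≤ x1)
    (hx1 : 1 ≤ x1) (hx1x : x1 ≤ x) (hq : 1 ≤ q) (hqx : q ≤ x) (hβ' : β' ≠ 0)
    (hsmall : |β'| * (q * (4 * α * x)) ≤ 1 / 2) :
    ‖∑ n ∈ Ioc x1 x, e (-((qf α β n : ℝ) * (b / q + β')))‖ ≤ 2 / (|β'| * x1) := by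
  classical
  have hb0 : 0 < |β'| := abs_pos.2 hβ'
  have hq0 : (0 : ℝ) < q := by exact_mod_cast hq
  have hx10 : (0 : ℝ) < x1 := by exact_mod_cast hx1
  have hsplit : ∑ n ∈ Ioc x1 x, e (-((qf α β n : ℝ) * (b / q + β'))) =
      ∑ r ∈ range q, ∑ n ∈ (Ioc x1 x).filter (fun n => n % q = r),
        e (-((qf α β n : ℝ) * (b / q + β'))) := by
    rw [sum_fiberwise_of_maps_to]
    intro n _
    rw [mem_range]
    exact Nat.mod_lt _ (by omega)
  rw [hsplit]
  have hone : ∀ r ∈ range q, ‖∑ n ∈ (Ioc x1 x).filter (fun n => n % q = r),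
        e (-((qf α β n : ℝ) * (b / q + β')))‖ ≤ 2 / (|β'| * q * x1) := by
    intro r hr
    rw [mem_range] at hr
    obtain ⟨n0, c, hn0, hcb, himg⟩ := class_image x1 x q r hr
    have h1 : ∀ n ∈ (Ioc x1 x).filter (fun n => n % q = r),
        e (-((qf α β n : ℝ) * (b / q + β'))) =
        e (-((qf α β r : ℝ) * (b / q))) * e (-((qf α β n : ℝ) * β')) := by
      intro n hn
      rw [mem_filter] at hn
      have h2 : (n : ℤ) = r + q * (n / q : ℕ) := by
        have := Nat.mod_add_div n q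
        rw [hn.2] at this
        exact_mod_cast this.symm
      obtain ⟨k, hk⟩ : ∃ k : ℤ, qf α β n = qf α β r + q * k := by
        refine ⟨α * (2 * r * (n / q : ℕ) + q * (n / q : ℕ) ^ 2) + β * (n / q : ℕ), ?_⟩
        unfold qf
        rw [h2]
        ring
      rw [← e_add]
      have h3 : -((qf α β n : ℝ) * (b / q + β')) = (-((qf α β r : ℝ) * (b / q)) +
          -((qf α β n : ℝ) * β')) + ((-(k * b) : ℤ) : ℝ) := by
        rw [hk]
        push_cast
        field_simp
        ring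
      rw [h3, e_add_int]
    rw [sum_congr rfl h1, ← mul_sum, norm_mul, norm_e, one_mul, himg, sum_image (by
      intro i _ j _ hij
      simp only at hij
      have : q * i = q * j := by omega
      exact Nat.eq_of_mul_eq_mul_left (by omega) this)]
    -- reduce to positive frequency
    have h4 : ‖∑ i ∈ range c, e (-((qf α β (n0 + q * i) : ℝ) * β'))‖ =
        ‖∑ i ∈ range c, e ((qf α β (n0 + q * i) : ℝ) * |β'|)‖ := by
      rcases lt_or_gt_of_ne hβ' with h | h
      · rw [abs_of_neg h]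
        congr 1
        refine sum_congr rfl fun i _ => ?_
        congr 1
        ring
      · rw [abs_of_pos h]
        exact norm_sum_neg (fun i : ℕ => (qf α β (n0 + q * i) : ℝ) * β') c
    rw [h4]
    have hdiff : ∀ i : ℕ, n0 + q * i ≤ x →
        (q : ℝ) * x1 ≤ (qf α β (n0 + q * (i + 1)) : ℝ) - qf α β (n0 + q * i) ∧
        (qf α β (n0 + q * (i + 1)) : ℝ) - qf α β (n0 + q * i) ≤ q * (4 * α * x) := by
      intro i hi
      obtain ⟨h5, h6⟩ := qf_diff_bounds α β x1 (n0 + q * i) q hα hβ (by omega)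
      have h7 : n0 + q * (i + 1) = n0 + q * i + q := by ring
      rw [h7]
      have h8 : (x1 : ℤ) ≤ (n0 + q * i : ℕ) := by
        have : x1 ≤ n0 + q * i := by omega
        exact_mod_cast this
      have h9 : ((n0 + q * i : ℕ) : ℤ) ≤ x := by exact_mod_cast hi
      have h10 : (q : ℤ) ≤ x := by exact_mod_cast hqx
      have h11 : (x1 : ℤ) ≤ x := by exact_mod_cast hx1x
      have h12 : (1 : ℤ) ≤ α := by exact_mod_cast hα
      have h13 : (0 : ℤ) ≤ q := by positivity
      constructor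
      · have : ((q : ℤ) * x1 : ℤ) ≤ qf α β (n0 + q * i + q) - qf α β (n0 + q * i) :=
          le_trans (mul_le_mul_of_nonneg_left h8 h13) h5
        exact_mod_cast this
      · have : qf α β (n0 + q * i + q) - qf α β (n0 + q * i) ≤ ((q : ℤ) * (4 * α * x) : ℤ) := by
          refine h6.trans (mul_le_mul_of_nonneg_left ?_ h13)
          have e1 : (α : ℤ) * (n0 + q * i : ℕ) ≤ α * x := by gcongr
          have e2 : (α : ℤ) * q ≤ α * x := by gcongr
          have e3 : (x1 : ℤ) ≤ α * x := by nlinarith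
          linarith
        exact_mod_cast this
    have h14 : 2 / (|β'| * q * x1) = 2 / (|β'| * (q * x1)) := by rw [mul_assoc]
    rw [h14]
    have hle : |β'| * ((q : ℝ) * x1) ≤ |β'| * (q * (4 * α * x)) := by
      have h12 : (1 : ℝ) ≤ α := by exact_mod_cast hα
      have h11 : (x1 : ℝ) ≤ x := by exact_mod_cast hx1x
      gcongr
      nlinarith
    apply kusmin_landau_mono (fun i : ℕ => (qf α β (n0 + q * i) : ℝ) * |β'|) c (by positivity)
    · intro i hi
      obtain ⟨h5, h6⟩ := hdiff i (hcb i hi)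
      calc |β'| * ((q : ℝ) * x1) ≤ |β'| * ((qf α β (n0 + q * (i + 1)) : ℝ) - qf α β (n0 + q * i)) := by
            gcongr
        _ = _ := by ring
    · intro i hi
      obtain ⟨h5, h6⟩ := hdiff i (hcb i hi)
      calc (qf α β (n0 + q * (i + 1)) : ℝ) * |β'| - (qf α β (n0 + q * i) : ℝ) * |β'|
          = |β'| * ((qf α β (n0 + q * (i + 1)) : ℝ) - qf α β (n0 + q * i)) := by ring
        _ ≤ |β'| * (q * (4 * α * x)) := by gcongr
        _ ≤ 1 / 2 := hsmall
        _ ≤ 1 - |β'| * ((q : ℝ) * x1) := by linarith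
    · intro i _
      have h15 : (qf α β (n0 + q * (i + 1)) : ℝ) - qf α β (n0 + q * i) ≤
          (qf α β (n0 + q * (i + 2)) : ℝ) - qf α β (n0 + q * (i + 1)) := by
        have : qf α β (n0 + q * (i + 1)) - qf α β (n0 + q * i) ≤
          qf α β (n0 + q * (i + 2)) - qf α β (n0 + q * (i + 1)) := by
          unfold qf
          push_cast
          have : (0 : ℤ) ≤ 2 * α * q ^ 2 := by positivity
          linarith
        exact_mod_cast this
      calc (qf α β (n0 + q * (i + 1)) : ℝ) * |β'| - (qf α β (n0 + q * i) : ℝ) * |β'|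
          = ((qf α β (n0 + q * (i + 1)) : ℝ) - qf α β (n0 + q * i)) * |β'| := by ring
        _ ≤ ((qf α β (n0 + q * (i + 2)) : ℝ) - qf α β (n0 + q * (i + 1))) * |β'| := by gcongr
        _ = _ := by ring
  calc ‖∑ r ∈ range q, ∑ n ∈ (Ioc x1 x).filter (fun n => n % q = r),
        e (-((qf α β n : ℝ) * (b / q + β')))‖
      ≤ ∑ r ∈ range q, 2 / (|β'| * q * x1) := (norm_sum_le _ _).trans (sum_le_sum hone)
    _ = _ := by
        rw [sum_const, card_range, nsmul_eq_mul]
        field_simp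

end Pool.Agent.W81.R1
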