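import Pool.Agent.H43.G.R_pool_sql_team_seeded_f72693b1.W81.R1.Blk

/-!
The final statement: longer intervals are covered by short blocks.
-/

set_option autoImplicit false

namespace Pool.Agent.W81.R1

open Finset Polynomial Filter
open Pool.Agent.H442R2.EHI (evt_log_pow evt_log_ge)
open Pool.Agent.H300R2.BH (rho SS pv lF)
open Pool.Agent.W80.EC

open Classical in
/-- all intervals -/
theorem fin (C U : ℕ) : ∃ B : ℕ, ∀ᶠ x : ℕ in atTop, ∀ (a : ℕ) (b c0 : ℤ) (A : ℕ), 1 ≤ a →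
    (a : ℝ) ≤ Real.log x ^ C → (|b| : ℝ) ≤ x / Real.log x ^ B →
    (|c0| : ℝ) ≤ (x : ℝ) ^ 2 * Real.log x ^ C → x * Real.log x ^ B ≤ A →
    (A : ℝ) ≤ (x : ℝ) ^ 2 * Real.log x ^ C →
    ∃ Bad : Finset ℤ, (Bad.card : ℝ) ≤ A / Real.log x ^ U ∧ ∀ c ∈ Ioc c0 (c0 + A), c ∉ Bad →
      Int.gcd (Int.gcd (a : ℤ) b : ℤ) c = 1 → ¬ IsSquare (b ^ 2 - 4 * a * c) →
      ¬ (Even ((a : ℤ) + b) ∧ Even c) → Good a b c x (U + 1) := by
  obtain ⟨B, hB⟩ := blk C (U + 1)
  refine ⟨B, ?_⟩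
  filter_upwards [hB, evt_log_ge 4, evt_log_pow (B + 1) (1 / 4) (by norm_num), eventually_ge_atTop 4]
    with x hblk hL4 hLp hx4 a b c0 A ha haC hb hc0 hA hA2
  set L := Real.log x with hL
  have hL0 : 0 < L := by linarith
  have hL1 : 1 ≤ L := by linarith
  have hp : ∀ n : ℕ, 0 < L ^ n := fun n => by positivity
  have hp1 : ∀ n : ℕ, 1 ≤ L ^ n := fun n => one_le_pow₀ hL1
  have hxr : (4 : ℝ) ≤ x := by exact_mod_cast hx4
  have hx0 : (0 : ℝ) < x := by linarith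
  set A1 := ⌈(x : ℝ) * L ^ B⌉₊ with hA1
  have hA1ge : (x : ℝ) * L ^ B ≤ A1 := Nat.le_ceil _
  have hA1A : A1 ≤ A := Nat.ceil_le.2 hA
  have hA1pos : 0 < A1 := Nat.ceil_pos.2 (by positivity)
  have hA1r : (0 : ℝ) < A1 := by exact_mod_cast hA1pos
  have hA154 : (A1 : ℝ) ≤ (x : ℝ) ^ (5 / 4 : ℝ) := by
    have h1 : (A1 : ℝ) < x * L ^ B + 1 := Nat.ceil_lt_add_one (by positivity)
    have h2 : 1 ≤ (x : ℝ) * L ^ B := by nlinarith [hp1 B]
    calc (A1 : ℝ) ≤ 2 * (x * L ^ B) := by linarith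
      _ ≤ L * (x * L ^ B) := by gcongr; linarith
      _ = x * L ^ (B + 1) := by ring
      _ ≤ x * (x : ℝ) ^ (1 / 4 : ℝ) := by gcongr
      _ = (x : ℝ) ^ (1 : ℝ) * (x : ℝ) ^ (1 / 4 : ℝ) := by rw [Real.rpow_one]
      _ = (x : ℝ) ^ (5 / 4 : ℝ) := by rw [← Real.rpow_add hx0]; norm_num
  set J := A / A1 + 1 with hJ
  have hJA : A < A1 * J := Nat.lt_mul_div_succ A hA1pos
  have hJA2 : A1 * (A / A1) ≤ A := Nat.mul_div_le A A1
  have hblock : ∀ j : ℕ, ∃ Bad : Finset ℤ, (Bad.card : ℝ) ≤ A1 / L ^ (U + 1) ∧ (j < J →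
      ∀ c ∈ Ioc (c0 + (A1 * j : ℕ)) (c0 + (A1 * j : ℕ) + A1), c ∉ Bad →
      Int.gcd (Int.gcd (a : ℤ) b : ℤ) c = 1 → ¬ IsSquare (b ^ 2 - 4 * a * c) →
      ¬ (Even ((a : ℤ) + b) ∧ Even c) → Good a b c x (U + 1)) := by
    intro j
    by_cases hj : j < J
    · have hj1 : A1 * j ≤ A := le_trans (Nat.mul_le_mul_left _ (by omega)) hJA2
      have hj2 : ((A1 * j : ℕ) : ℝ) ≤ A := by exact_mod_cast hj1
      obtain ⟨Bad, h1, h2⟩ := hblk a b (c0 + (A1 * j : ℕ)) A1 ha haC hb (by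
        push_cast at hj2 ⊢
        have h3 : |(c0 : ℝ) + A1 * j| ≤ |(c0 : ℝ)| + A := by
          refine (abs_add_le _ _).trans ?_
          rw [abs_of_nonneg (by positivity : (0 : ℝ) ≤ A1 * j)]
          linarith
        calc |(c0 : ℝ) + A1 * j| ≤ |(c0 : ℝ)| + A := h3
          _ ≤ 2 * ((x : ℝ) ^ 2 * L ^ C) := by linarith
          _ ≤ L * ((x : ℝ) ^ 2 * L ^ C) := by gcongr; linarith
          _ = (x : ℝ) ^ 2 * L ^ (C + 1) := by ring) hA1ge hA154
      exact ⟨Bad, h1, fun _ => h2⟩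
    · exact ⟨∅, by rw [card_empty]; push_cast; positivity, fun h => absurd h hj⟩
  choose Bad hBad hgood using hblock
  refine ⟨(range J).biUnion Bad, ?_, ?_⟩
  · calc (((range J).biUnion Bad).card : ℝ) ≤ ∑ j ∈ range J, ((Bad j).card : ℝ) := by
          exact_mod_cast card_biUnion_le
      _ ≤ ∑ j ∈ range J, (A1 : ℝ) / L ^ (U + 1) := sum_le_sum fun j _ => hBad j
      _ = (J * A1 : ℝ) / L ^ (U + 1) := by rw [sum_const, card_range, nsmul_eq_mul, mul_div_assoc]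
      _ ≤ (2 * A) / L ^ (U + 1) := by
          have h1 : (J : ℝ) * A1 ≤ 2 * A := by
            have h2 : J * A1 ≤ 2 * A := by
              rw [hJ, add_mul, one_mul, mul_comm (A / A1) A1]
              omega
            exact_mod_cast h2
          gcongr
      _ ≤ A / L ^ U := by
          rw [div_le_div_iff₀ (by positivity) (by positivity), pow_succ]
          have : 0 ≤ (A : ℝ) * L ^ U := by positivity
          nlinarith
  · intro c hc hcB hg hsq hpar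
    rw [mem_Ioc] at hc
    set k := (c - c0 - 1).toNat with hk
    have hkc : c0 + 1 + (k : ℤ) = c := by omega
    have hkA : k < A := by omega
    set j := k / A1 with hj
    have h1 : A1 * j ≤ k := Nat.mul_div_le k A1
    have h2 : k < A1 * (j + 1) := Nat.lt_mul_div_succ k hA1pos
    have hjJ : j < J := by
      have h3 : A1 * j < A1 * J := by omega
      exact Nat.lt_of_mul_lt_mul_left h3
    apply hgood j hjJ c _ _ hg hsq hpar
    · rw [mem_Ioc]
      rw [Nat.mul_succ] at h2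
      constructor <;> omega
    · intro hcon
      apply hcB
      rw [mem_biUnion]
      exact ⟨j, mem_range.2 hjJ, hcon⟩

end Pool.Agent.W81.R1
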