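import Pool.Agent.H43.G.R_pool_sql_team_seeded_f72693b1.W81.R1.Core2
import Pool.Agent.H43.G.R_seed8.H442R2.EHI.Core2

/-!
The second moment in short intervals of shifts, quadratic polynomials: savings of powers of the
logarithm.
-/

set_option autoImplicit false

namespace Pool.Agent.W81.R1

open Finset Filter
open Pool.Agent.H469R2.NK (e)
open Pool.Agent.H442R2.EHI (evt_log_pow evt_log_ge)
open Pool.Agent.H300R2.BH (chf fz)

/-- arithmetic of the final estimate -/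
lemma final_arith (L x A N G2 Y x1 Q D δ1 S0 : ℝ) (C0 C4 U1 U2 G E1 C2 E3 : ℕ)
    (hL : 5120 ≤ L) (hx : 0 < x) (hA0 : 0 < A)
    (hN0 : 0 < N) (hN : N ≤ x ^ 2 * L ^ C4) (hG2 : G2 = N * L ^ G)
    (hE1 : E1 = C4 + G + U1 + U2 + 1) (hC2 : C2 = C4 + U1 + 2 * (C0 + E1) + U2 + 2)
    (hE3 : E3 = G + 2 * C2 + 2 * (C0 + E1) + U2 + 2)
    (hD : D = L ^ E1) (hδ1 : δ1 = L ^ (G + 2 * C2) / N) (hS0 : S0 = N / L ^ E3)
    (hAB : x * L ^ (C4 + G + U2 + 1) ≤ A) (hx1 : x / (2 * L ^ U1) ≤ x1) (hY0 : 0 ≤ Y)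
    (hY : Y ≤ A / x1) (hQ0 : 0 ≤ Q) (hQ : Q ≤ 5 * L ^ (C0 + E1)) :
    128 * G2 * (x + 5 * (x * Y) / D) +
      64 * A * (Q * (Q + 1) * (3 * δ1 * S0 * x + 4 * Real.sqrt (G2 / δ1) / x1)) ^ 2 ≤
      A * x ^ 2 / L ^ U2 := by
  have hL0 : 0 < L := by linarith
  have hL1 : 1 ≤ L := by linarith
  have hp : ∀ n : ℕ, 0 < L ^ n := fun n => by positivity
  have hp1 : ∀ n : ℕ, 1 ≤ L ^ n := fun n => one_le_pow₀ hL1
  have hx10 : 0 < x1 := lt_of_lt_of_le (by positivity) hx1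
  -- first term
  have hG2le : G2 ≤ x ^ 2 * L ^ (C4 + G) := by
    rw [hG2, pow_add, ← mul_assoc]
    gcongr
  have hG20 : 0 < G2 := by rw [hG2]; positivity
  have hxY : x * Y ≤ 2 * A * L ^ U1 := by
    have h1 : x ≤ 2 * L ^ U1 * x1 := by
      rw [div_le_iff₀ (by positivity)] at hx1
      linarith
    calc x * Y ≤ (2 * L ^ U1 * x1) * (A / x1) := by gcongr
      _ = 2 * A * L ^ U1 := by field_simp
  have t1 : 128 * G2 * x ≤ A * x ^ 2 / L ^ U2 / 4 := by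
    rw [div_div, le_div_iff₀ (by positivity)]
    calc 128 * G2 * x * (L ^ U2 * 4) ≤ 128 * (x ^ 2 * L ^ (C4 + G)) * x * (L ^ U2 * 4) := by gcongr
      _ = 512 * (x * L ^ (C4 + G + U2)) * x ^ 2 := by ring
      _ ≤ L * (x * L ^ (C4 + G + U2)) * x ^ 2 := by gcongr; linarith
      _ = (x * L ^ (C4 + G + U2 + 1)) * x ^ 2 := by ring
      _ ≤ A * x ^ 2 := by gcongr
  have t2 : 128 * G2 * (5 * (x * Y) / D) ≤ A * x ^ 2 / L ^ U2 / 4 := by
    rw [hD, mul_div_assoc', div_div, div_le_div_iff₀ (hp _) (by positivity)]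
    calc 128 * G2 * (5 * (x * Y)) * (L ^ U2 * 4)
        ≤ 128 * (x ^ 2 * L ^ (C4 + G)) * (5 * (2 * A * L ^ U1)) * (L ^ U2 * 4) := by gcongr
      _ = 5120 * (A * x ^ 2) * L ^ (C4 + G + U1 + U2) := by ring
      _ ≤ L * (A * x ^ 2) * L ^ (C4 + G + U1 + U2) := by gcongr
      _ = A * x ^ 2 * L ^ E1 := by rw [hE1]; ring
  -- second term
  have hδ10 : 0 < δ1 := by rw [hδ1]; positivity
  have s1 : Real.sqrt (G2 / δ1) = N / L ^ C2 := by
    have h1 : G2 / δ1 = (N / L ^ C2) ^ 2 := by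
      rw [hG2, hδ1, div_pow, ← pow_mul, pow_add, mul_comm C2 2]
      field_simp
    rw [h1, Real.sqrt_sq (by positivity)]
  have s2 : 4 * Real.sqrt (G2 / δ1) / x1 ≤ 8 * x / L ^ (2 * (C0 + E1) + U2 + 2) := by
    rw [s1, div_le_div_iff₀ hx10 (hp _)]
    have h1 : x ≤ 2 * L ^ U1 * x1 := by
      rw [div_le_iff₀ (by positivity)] at hx1
      linarith
    calc 4 * (N / L ^ C2) * L ^ (2 * (C0 + E1) + U2 + 2)
        ≤ 4 * (x ^ 2 * L ^ C4 / L ^ C2) * L ^ (2 * (C0 + E1) + U2 + 2) := by gcongr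
      _ = 4 * x * x / L ^ U1 := by
          rw [hC2, show C4 + U1 + 2 * (C0 + E1) + U2 + 2 = C4 + (U1 + (2 * (C0 + E1) + U2 + 2)) by ring,
            pow_add L C4, pow_add L U1]
          field_simp
      _ ≤ 4 * x * (2 * L ^ U1 * x1) / L ^ U1 := by gcongr
      _ = 8 * x * x1 := by field_simp; ring
  have s3 : 3 * δ1 * S0 * x = 3 * x / L ^ (2 * (C0 + E1) + U2 + 2) := by
    rw [hδ1, hS0, hE3, show G + 2 * C2 + 2 * (C0 + E1) + U2 + 2 = (G + 2 * C2) + (2 * (C0 + E1) + U2 + 2) by ring,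
      pow_add L (G + 2 * C2)]
    field_simp
  have s4 : 3 * δ1 * S0 * x + 4 * Real.sqrt (G2 / δ1) / x1 ≤
      11 * x / L ^ (2 * (C0 + E1) + U2 + 2) := by
    rw [s3]
    calc 3 * x / L ^ (2 * (C0 + E1) + U2 + 2) + 4 * Real.sqrt (G2 / δ1) / x1
        ≤ 3 * x / L ^ (2 * (C0 + E1) + U2 + 2) + 8 * x / L ^ (2 * (C0 + E1) + U2 + 2) := by gcongr
      _ = _ := by ring
  have s0 : 0 ≤ 3 * δ1 * S0 * x + 4 * Real.sqrt (G2 / δ1) / x1 := by
    have : 0 ≤ 4 * Real.sqrt (G2 / δ1) / x1 := by positivity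
    rw [s3]
    positivity
  have s5 : Q * (Q + 1) ≤ 30 * L ^ (2 * (C0 + E1)) := by
    calc Q * (Q + 1) ≤ (5 * L ^ (C0 + E1)) * (5 * L ^ (C0 + E1) + 1 * L ^ (C0 + E1)) := by
          gcongr
          rw [one_mul]
          exact hp1 _
      _ = 30 * L ^ (2 * (C0 + E1)) := by ring
  have s6 : Q * (Q + 1) * (3 * δ1 * S0 * x + 4 * Real.sqrt (G2 / δ1) / x1) ≤
      330 * x / L ^ (U2 + 2) := by
    calc Q * (Q + 1) * (3 * δ1 * S0 * x + 4 * Real.sqrt (G2 / δ1) / x1)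
        ≤ (30 * L ^ (2 * (C0 + E1))) * (11 * x / L ^ (2 * (C0 + E1) + U2 + 2)) :=
          mul_le_mul s5 s4 s0 (by positivity)
      _ = 330 * x / L ^ (U2 + 2) := by
          rw [show 2 * (C0 + E1) + U2 + 2 = 2 * (C0 + E1) + (U2 + 2) by ring, pow_add L (2 * (C0 + E1))]
          field_simp
          ring
  have t3 : 64 * A * (Q * (Q + 1) * (3 * δ1 * S0 * x + 4 * Real.sqrt (G2 / δ1) / x1)) ^ 2 ≤
      A * x ^ 2 / L ^ U2 / 2 := by
    have h1 : (Q * (Q + 1) * (3 * δ1 * S0 * x + 4 * Real.sqrt (G2 / δ1) / x1)) ^ 2 ≤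
        (330 * x / L ^ (U2 + 2)) ^ 2 := by
      apply pow_le_pow_left₀ _ s6
      positivity
    calc 64 * A * (Q * (Q + 1) * (3 * δ1 * S0 * x + 4 * Real.sqrt (G2 / δ1) / x1)) ^ 2
        ≤ 64 * A * (330 * x / L ^ (U2 + 2)) ^ 2 := by gcongr
      _ = 64 * 330 ^ 2 * (A * x ^ 2) / (L ^ (U2 + 2)) ^ 2 := by
          rw [div_pow, mul_pow]; ring
      _ ≤ A * x ^ 2 / L ^ U2 / 2 := by
          rw [div_div, div_le_div_iff₀ (by positivity) (by positivity)]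
          have h2 : (64 * 330 ^ 2 : ℝ) * 2 ≤ L ^ 4 := by
            calc (64 * 330 ^ 2 : ℝ) * 2 ≤ 5120 ^ 4 := by norm_num
              _ ≤ L ^ 4 := pow_le_pow_left₀ (by norm_num) hL 4
          calc 64 * 330 ^ 2 * (A * x ^ 2) * (L ^ U2 * 2) = (64 * 330 ^ 2 * 2) * ((A * x ^ 2) * L ^ U2) := by ring
            _ ≤ L ^ 4 * ((A * x ^ 2) * L ^ U2) := by gcongr
            _ = A * x ^ 2 * (L ^ (U2 + 4) * 1) := by ring
            _ ≤ A * x ^ 2 * (L ^ (U2 + 4) * L ^ U2) := by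
                gcongr
                exact hp1 _
            _ = A * x ^ 2 * (L ^ (U2 + 2)) ^ 2 := by ring
  calc _ = 128 * G2 * x + 128 * G2 * (5 * (x * Y) / D) +
      64 * A * (Q * (Q + 1) * (3 * δ1 * S0 * x + 4 * Real.sqrt (G2 / δ1) / x1)) ^ 2 := by ring
    _ ≤ A * x ^ 2 / L ^ U2 / 4 + A * x ^ 2 / L ^ U2 / 4 + A * x ^ 2 / L ^ U2 / 2 := by
        gcongr
    _ = _ := by ring

/-- the second moment in short intervals of shifts -/
theorem short_log (C0 C4 U1 U2 G : ℕ) : ∃ E3 B : ℕ, ∀ᶠ x : ℕ in atTop,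
    ∀ (α : ℕ) (β : ℤ) (A N : ℕ) (a0 : ℤ) (g : ℕ → ℂ), 1 ≤ α → (α : ℝ) ≤ Real.log x ^ C0 →
      (|β| : ℝ) ≤ x / Real.log x ^ (U1 + 1) → x * Real.log x ^ B ≤ A → (A : ℝ) ≤ (x : ℝ) ^ (3 / 2 : ℝ) →
      1 ≤ N → (N : ℝ) ≤ (x : ℝ) ^ 2 * Real.log x ^ C4 → (∀ n, N < n → g n = 0) →
      (∀ n ∈ Ioc 0 x, ∀ k < A, |qf α β n + (a0 + k)| ≤ N) →
      ∑ n ∈ Icc 1 N, ‖g n‖ ^ 2 ≤ N * Real.log x ^ G →
      (∀ t : ℝ, ‖∑ n ∈ Icc 1 N, g n * e (n * t)‖ ≤ N / Real.log x ^ E3) →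
      ∑ k ∈ range A, ‖∑ n ∈ Ioc ⌊(x : ℝ) / Real.log x ^ U1⌋₊ x, fz g (qf α β n + (a0 + k))‖ ^ 2 ≤
        A * (x : ℝ) ^ 2 / Real.log x ^ U2 := by
  set E1 := C4 + G + U1 + U2 + 1 with hE1
  set C2 := C4 + U1 + 2 * (C0 + E1) + U2 + 2 with hC2
  set E3 := G + 2 * C2 + 2 * (C0 + E1) + U2 + 2 with hE3
  set B := 3 * E1 + 2 * C0 + 1 with hB
  refine ⟨E3, B, ?_⟩
  filter_upwards [evt_log_ge 5120, evt_log_pow (2 * E1 + U1 + 4) (1 / 4) (by norm_num),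
    evt_log_pow (C0 + E1 + U1 + 4) 1 (by norm_num), eventually_ge_atTop 16]
    with x hL hx1 hx2 hx16 α β A N a0 g hα hαL hβ hA hA32 hN1 hN hg hval hG hsup
  rw [Real.rpow_one] at hx2
  set L := Real.log x with hLd
  have hL0 : 0 < L := by linarith
  have hL1 : 1 ≤ L := by linarith
  have hp : ∀ n : ℕ, 0 < L ^ n := fun n => by positivity
  have hp1 : ∀ n : ℕ, 1 ≤ L ^ n := fun n => one_le_pow₀ hL1
  have hxr : (16 : ℝ) ≤ x := by exact_mod_cast hx16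
  have hx0 : (0 : ℝ) < x := by linarith
  have hNr : (1 : ℝ) ≤ N := by exact_mod_cast hN1
  have hxU1 : 2 * L ^ U1 ≤ x := by
    calc 2 * L ^ U1 ≤ L * L ^ U1 := by gcongr; linarith
      _ = L ^ (U1 + 1) := by ring
      _ ≤ L ^ (C0 + E1 + U1 + 4) := pow_le_pow_right₀ hL1 (by omega)
      _ ≤ x := hx2
  set x1 := ⌊(x : ℝ) / L ^ U1⌋₊ with hx1d
  have hfl : (x : ℝ) / L ^ U1 < x1 + 1 := Nat.lt_floor_add_one _
  have h2le : 2 ≤ (x : ℝ) / L ^ U1 := by rw [le_div_iff₀ (hp _)]; exact hxU1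
  have hx1lo : (x : ℝ) / (2 * L ^ U1) ≤ x1 := by
    have h1 : (x : ℝ) / (2 * L ^ U1) = (x : ℝ) / L ^ U1 / 2 := by rw [div_div]; ring
    rw [h1]
    linarith
  have hx1hi : (x1 : ℝ) ≤ x / L ^ U1 := Nat.floor_le (by positivity)
  have hx1x : x1 ≤ x := by
    have : (x1 : ℝ) ≤ x := by
      refine hx1hi.trans ?_
      rw [div_le_iff₀ (hp _)]
      nlinarith [hp1 U1]
    exact_mod_cast this
  have hx1one : 1 ≤ x1 := by
    have : (0 : ℝ) < x1 := lt_of_lt_of_le (by positivity) hx1lo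
    exact_mod_cast this
  have hx10 : (0 : ℝ) < x1 := by exact_mod_cast hx1one
  have hAx : (x : ℝ) ≤ A := by
    refine le_trans ?_ hA
    nlinarith [hp1 B]
  have hA0 : (0 : ℝ) < A := by linarith
  have hx1A : x1 ≤ A := by
    have : (x1 : ℝ) ≤ A := le_trans (by exact_mod_cast hx1x) hAx
    exact_mod_cast this
  have hA1 : 1 ≤ A := hx1one.trans hx1A
  set K := N / A + 1 with hK
  have hAK : N + 1 ≤ A * K := by
    rw [hK]
    exact Nat.lt_mul_div_succ N (show 0 < A by omega)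
  have hK1 : 1 ≤ K := by rw [hK]; exact Nat.le_add_left 1 _
  set Y := A / x1 with hY
  have hYle : (Y : ℝ) ≤ A / x1 := Nat.cast_div_le
  have hYge : (L ^ B) / 2 ≤ Y := by
    have h1 : (A : ℝ) < x1 * (Y + 1) := by
      have h2 := Nat.lt_mul_div_succ A (show 0 < x1 by omega)
      rw [← hY] at h2
      exact_mod_cast h2
    have h3 : (x1 : ℝ) * L ^ B ≤ A := by
      refine le_trans ?_ hA
      gcongr
    have h4 : (x1 : ℝ) * L ^ B < x1 * (Y + 1) := lt_of_le_of_lt h3 h1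
    have h5 : L ^ B < Y + 1 := lt_of_mul_lt_mul_left h4 hx10.le
    have h6 : 2 ≤ L ^ B := by
      calc (2 : ℝ) ≤ L ^ 1 := by rw [pow_one]; linarith
        _ ≤ L ^ B := pow_le_pow_right₀ hL1 (by omega)
    linarith
  have hY0 : (0 : ℝ) < Y := lt_of_lt_of_le (by positivity) hYge
  set D : ℝ := L ^ E1 with hD
  set Q := ⌈4 * (α : ℝ) * D⌉₊ with hQ
  have hαr : (1 : ℝ) ≤ α := by exact_mod_cast hα
  have hQlt : (Q : ℝ) < 4 * (α : ℝ) * D + 1 := Nat.ceil_lt_add_one (by positivity)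
  have hQge : 4 * (α : ℝ) * D ≤ Q := Nat.le_ceil _
  have hQle : (Q : ℝ) ≤ 5 * L ^ (C0 + E1) := by
    have h1 : (α : ℝ) * D ≤ L ^ (C0 + E1) := by
      rw [pow_add]
      gcongr
    have h2 := hp1 (C0 + E1)
    nlinarith
  have hQx : (Q : ℝ) ≤ x := by
    refine hQle.trans (le_trans ?_ hx2)
    calc 5 * L ^ (C0 + E1) ≤ L * L ^ (C0 + E1) := by gcongr; linarith
      _ = L ^ (C0 + E1 + 1) := by ring
      _ ≤ _ := pow_le_pow_right₀ hL1 (by omega)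
  have hvals : ∀ n ∈ Ioc x1 x, ∀ k < A, |qf α β n + (a0 + k)| ≤ N := by
    intro n hn k hk
    rw [mem_Ioc] at hn
    exact hval n (by rw [mem_Ioc]; omega) k hk
  have hM : N + 1 ≤ 16 * A * K := by nlinarith
  have hM2 : 2 * N + 2 ≤ 2 * (A * K) := by omega
  have hAAK : A ≤ A * K := Nat.le_mul_of_pos_right _ hK1
  have hMN : N + N + A ≤ 16 * A * K := by nlinarith
  have key := short_core α β x1 x A K N Q a0 g (N * L ^ G) (N / L ^ E3) D (L ^ (G + 2 * C2) / N)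
    hα ?_ hx1one hx1x hx1A hK1 hg hM ?_ ?_ (hp1 _) ?_ hQge (by exact_mod_cast hQx) ?_ (by positivity) ?_ hG
    (by positivity) hsup
  · refine key.trans ?_
    exact final_arith L x A N (N * L ^ G) Y x1 Q D (L ^ (G + 2 * C2) / N) (N / L ^ E3) C0 C4 U1 U2 G E1 C2 E3
      hL hx0 hA0 (by linarith) hN rfl hE1 hC2 hE3 hD rfl rfl
      (le_trans (mul_le_mul_of_nonneg_left (pow_le_pow_right₀ hL1 (by omega)) hx0.le) hA) hx1lo hY0.le hYle (Nat.cast_nonneg _) hQle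
  · -- beta
    have h1 : (|β| : ℝ) ≤ x1 := by
      refine hβ.trans (le_trans ?_ hx1lo)
      rw [div_le_div_iff₀ (hp _) (by positivity)]
      have h2 : 2 * L ^ U1 ≤ L ^ (U1 + 1) := by
        calc 2 * L ^ U1 ≤ L * L ^ U1 := by gcongr; linarith
          _ = _ := by ring
      nlinarith
    exact_mod_cast h1
  · intro n hn k hk
    have h1 := abs_le.1 (hvals n hn k hk)
    have h2 : (N : ℤ) + N + A ≤ ((16 * A * K : ℕ) : ℤ) := by exact_mod_cast hMN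
    have h3 : (1 : ℤ) ≤ A := by exact_mod_cast hA1
    constructor <;> linarith
  · intro n hn n' hn'
    have h1 := abs_le.1 (hvals n hn 0 hA1)
    have h2 := abs_le.1 (hvals n' hn' 0 hA1)
    have h3 : |qf α β n - qf α β n'| ≤ N + N := by
      rw [abs_le]
      constructor <;> linarith
    have h4 : (qf α β n - qf α β n').natAbs ≤ N + N := by
      have : (((qf α β n - qf α β n').natAbs : ℕ) : ℤ) ≤ N + N := by rw [Int.natCast_natAbs]; exact h3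
      exact_mod_cast this
    omega
  · -- 2 D Y + 2 D^2 < x
    have h1 : (A : ℝ) / x1 ≤ 2 * L ^ U1 * (x : ℝ) ^ (1 / 2 : ℝ) := by
      rw [div_le_iff₀ hx10]
      have h2 : (x : ℝ) ≤ 2 * L ^ U1 * x1 := by
        rw [div_le_iff₀ (by positivity)] at hx1lo
        linarith
      calc (A : ℝ) ≤ (x : ℝ) ^ (3 / 2 : ℝ) := hA32
        _ = (x : ℝ) ^ (1 / 2 : ℝ) * x := by
            nth_rewrite 3 [← Real.rpow_one (x : ℝ)]
            rw [← Real.rpow_add hx0]; norm_num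
        _ ≤ (x : ℝ) ^ (1 / 2 : ℝ) * (2 * L ^ U1 * x1) := by gcongr
        _ = _ := by ring
    have h3 : (x : ℝ) ^ (1 / 4 : ℝ) * (x : ℝ) ^ (1 / 2 : ℝ) < x := by
      rw [← Real.rpow_add hx0]
      calc (x : ℝ) ^ ((1 / 4 : ℝ) + 1 / 2) < (x : ℝ) ^ (1 : ℝ) :=
            Real.rpow_lt_rpow_of_exponent_lt (by linarith) (by norm_num)
        _ = x := Real.rpow_one _
    have h4 : (1 : ℝ) ≤ (x : ℝ) ^ (1 / 2 : ℝ) := Real.one_le_rpow (by linarith) (by norm_num)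
    calc 2 * D * (Y : ℝ) + 2 * D * D ≤ 2 * D * (2 * L ^ U1 * (x : ℝ) ^ (1 / 2 : ℝ)) + 2 * D * D * (x : ℝ) ^ (1 / 2 : ℝ) := by
          have h5 : 2 * D * D * 1 ≤ 2 * D * D * (x : ℝ) ^ (1 / 2 : ℝ) := by gcongr
          have h6 : (Y : ℝ) ≤ 2 * L ^ U1 * (x : ℝ) ^ (1 / 2 : ℝ) := hYle.trans h1
          have h7 : 2 * D * (Y : ℝ) ≤ 2 * D * (2 * L ^ U1 * (x : ℝ) ^ (1 / 2 : ℝ)) := by gcongr
          linarith
      _ = (4 * L ^ (E1 + U1) + 2 * L ^ (2 * E1)) * (x : ℝ) ^ (1 / 2 : ℝ) := by rw [hD]; ring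
      _ ≤ (x : ℝ) ^ (1 / 4 : ℝ) * (x : ℝ) ^ (1 / 2 : ℝ) := by
          gcongr
          refine le_trans ?_ hx1
          have h5 : L ^ (E1 + U1) ≤ L ^ (2 * E1 + U1) := pow_le_pow_right₀ hL1 (by omega)
          have h6 : L ^ (2 * E1) ≤ L ^ (2 * E1 + U1) := pow_le_pow_right₀ hL1 (by omega)
          calc 4 * L ^ (E1 + U1) + 2 * L ^ (2 * E1) ≤ 6 * L ^ (2 * E1 + U1) := by linarith
            _ ≤ L ^ 4 * L ^ (2 * E1 + U1) := by
                gcongr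
                calc (6 : ℝ) ≤ L ^ 1 := by rw [pow_one]; linarith
                  _ ≤ L ^ 4 := pow_le_pow_right₀ hL1 (by norm_num)
            _ = _ := by ring
      _ < x := h3
  · -- small
    have h1 : D ^ 2 / (x * (Y : ℝ)) * (Q * (4 * α * x)) ≤ 1 / 4 := by
      have h2 : D ^ 2 / (x * (Y : ℝ)) * (Q * (4 * α * x)) = 4 * D ^ 2 * Q * α / Y := by
        field_simp
      rw [h2, div_le_div_iff₀ hY0 (by norm_num)]
      calc 4 * D ^ 2 * Q * α * 4 ≤ 4 * D ^ 2 * (5 * L ^ (C0 + E1)) * L ^ C0 * 4 := by gcongr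
        _ = 80 * L ^ (3 * E1 + 2 * C0) := by rw [hD]; ring
        _ ≤ (L / 2) * L ^ (3 * E1 + 2 * C0) := by gcongr; linarith
        _ = L ^ B / 2 := by rw [hB]; ring
        _ ≤ 1 * Y := by linarith
    have h3 : 1 / (16 * (A : ℝ)) * (Q * (4 * α * x)) ≤ 1 / 4 := by
      rw [one_div_mul_eq_div, div_le_div_iff₀ (by positivity) (by norm_num)]
      calc (Q : ℝ) * (4 * α * x) * 4 ≤ (5 * L ^ (C0 + E1)) * (4 * L ^ C0 * x) * 4 := by gcongr
        _ = 80 * (x * L ^ (2 * C0 + E1)) := by ring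
        _ ≤ L * (x * L ^ (2 * C0 + E1)) := by gcongr; linarith
        _ = x * L ^ (2 * C0 + E1 + 1) := by ring
        _ ≤ x * L ^ B := mul_le_mul_of_nonneg_left (pow_le_pow_right₀ hL1 (by omega)) hx0.le
        _ ≤ A := hA
        _ ≤ 1 * (16 * A) := by linarith
    rw [add_mul]
    linarith
  · -- delta M
    rw [div_mul_eq_mul_div, le_div_iff₀ (by linarith), one_mul]
    have h1 : (N : ℝ) ≤ ((16 * A * K : ℕ) : ℝ) := by exact_mod_cast (by omega : N ≤ 16 * A * K)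
    have h2 := hp1 (G + 2 * C2)
    have h3 : (0 : ℝ) ≤ ((16 * A * K : ℕ) : ℝ) := Nat.cast_nonneg _
    nlinarith

end Pool.Agent.W81.R1
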