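import Pool.Agent.H43.G.R_pool_sql_team_seeded_f72693b1.W81.R1.Mean
import Pool.Agent.H43.G.R_seed8.H373R2.T7.SysCount
import Pool.Agent.H43.G.R_pool_sql_team_seeded_f72693b1.W80.EC.Count

/-!
From the weighted sums to the number of prime values, for one polynomial.
-/

set_option autoImplicit false

namespace Pool.Agent.W81.R1

open Finset Filter Polynomial
open Pool.Agent.H442R2.EHI (evt_log_pow evt_log_ge)
open Pool.Agent.H300R2.BH (rho SS pv lF)
open Pool.Agent.H373R2.T7 (lamz Vz pz mem_pz lamz_nonneg Vz_pos Vz_inv_small sys_count PerB nuB)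
open Pool.Agent.W80.EC (q2 q2_eval rho_odd rho_dvd_a rho_dvd_ab)

/-- Abel summation with decreasing weights -/
lemma abel_anti (a w : ℕ → ℝ) (u y : ℕ) (W T : ℝ) (hT0 : 0 ≤ T) (hW0 : 0 ≤ W)
    (hw0 : ∀ n, u < n → n ≤ y → 0 ≤ w n)
    (hanti : ∀ n, u < n → n + 1 ≤ y → w (n + 1) ≤ w n)
    (hW : ∀ n, u < n → n ≤ y → w n ≤ W)
    (hT : ∀ t, u ≤ t → t ≤ y → |∑ n ∈ Ioc u t, a n| ≤ T) :
    |∑ n ∈ Ioc u y, a n * w n| ≤ W * T := by
  rcases Nat.lt_or_ge u y with huy | huy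
  · have key : ∀ t, u + 1 ≤ t → t ≤ y → |∑ n ∈ Ioc u t, a n * w n - (∑ n ∈ Ioc u t, a n) * w t| ≤
        T * (W - w t) := by
      intro t ht
      induction t, ht using Nat.le_induction with
      | base =>
        intro hy
        have h1 : Ioc u (u + 1) = {u + 1} := by
          ext n; simp only [mem_Ioc, mem_singleton]; omega
        rw [h1, sum_singleton, sum_singleton, sub_self, abs_zero]
        have := hW (u + 1) (by omega) hy
        exact mul_nonneg hT0 (by linarith)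
      | succ t ht ih =>
        intro hy
        have h1 : Ioc u (t + 1) = insert (t + 1) (Ioc u t) := by
          ext n; simp only [mem_Ioc, mem_insert]; omega
        rw [h1, sum_insert (by simp), sum_insert (by simp)]
        have e1 : a (t + 1) * w (t + 1) + ∑ n ∈ Ioc u t, a n * w n -
            (a (t + 1) + ∑ n ∈ Ioc u t, a n) * w (t + 1) =
            (∑ n ∈ Ioc u t, a n * w n - (∑ n ∈ Ioc u t, a n) * w t) +
            (∑ n ∈ Ioc u t, a n) * (w t - w (t + 1)) := by ring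
        rw [e1]
        have h2 := hanti t (by omega) hy
        have h3 := hT t (by omega) (by omega)
        calc _ ≤ |∑ n ∈ Ioc u t, a n * w n - (∑ n ∈ Ioc u t, a n) * w t| +
              |(∑ n ∈ Ioc u t, a n) * (w t - w (t + 1))| := abs_add_le _ _
          _ ≤ T * (W - w t) + T * (w t - w (t + 1)) := by
              apply add_le_add (ih (by omega))
              rw [abs_mul, abs_of_nonneg (by linarith : 0 ≤ w t - w (t + 1))]
              exact mul_le_mul_of_nonneg_right h3 (by linarith)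
          _ = T * (W - w (t + 1)) := by ring
    have h1 := key y huy le_rfl
    have h2 := hT y huy.le le_rfl
    have h3 := hw0 y huy le_rfl
    calc |∑ n ∈ Ioc u y, a n * w n| = |(∑ n ∈ Ioc u y, a n * w n - (∑ n ∈ Ioc u y, a n) * w y) +
          (∑ n ∈ Ioc u y, a n) * w y| := by congr 1; ring
      _ ≤ |∑ n ∈ Ioc u y, a n * w n - (∑ n ∈ Ioc u y, a n) * w y| +
          |(∑ n ∈ Ioc u y, a n) * w y| := abs_add_le _ _
      _ ≤ T * (W - w y) + T * w y := by
          apply add_le_add h1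
          rw [abs_mul, abs_of_nonneg h3]
          exact mul_le_mul_of_nonneg_right h2 h3
      _ = W * T := by ring
  · rw [Ioc_eq_empty (by omega), sum_empty, abs_zero]
    positivity

lemma gcd3 {a b c : ℤ} (hg : Int.gcd (Int.gcd a b : ℤ) c = 1) (p : ℕ) (hp : p.Prime)
    (h1 : (p : ℤ) ∣ a) (h2 : (p : ℤ) ∣ b) : ¬ (p : ℤ) ∣ c := by
  intro h3
  have h4 : (p : ℤ) ∣ (Int.gcd (Int.gcd a b : ℤ) c : ℤ) :=
    Int.dvd_coe_gcd (Int.dvd_coe_gcd h1 h2) h3
  rw [hg] at h4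
  have : p ∣ 1 := by exact_mod_cast h4
  exact hp.one_lt.ne' (Nat.dvd_one.1 this)

lemma rho_le_two {a b c : ℤ} (hg : Int.gcd (Int.gcd a b : ℤ) c = 1) (p : ℕ) (hp : p.Prime) :
    rho (q2 a b c) p ≤ 2 := by
  by_cases hp2 : p = 2
  · subst hp2
    unfold rho
    exact (card_filter_le _ _).trans (by simp)
  · by_cases ha : (p : ℤ) ∣ a
    · by_cases hb : (p : ℤ) ∣ b
      · rw [rho_dvd_ab _ a b c (q2_eval a b c) p hp ha hb (gcd3 hg p hp ha hb)]
        omega
      · rw [rho_dvd_a _ a b c (q2_eval a b c) p hp ha hb]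
        omega
    · have h1 := rho_odd _ a b c (q2_eval a b c) p hp hp2 ha
      rcases jacobiSym.trichotomy (b ^ 2 - 4 * a * c) p with h | h | h <;> rw [h] at h1 <;> omega

lemma card_inst (s : Finset ℕ) (p : ℕ → Prop) (i1 i2 : DecidablePred p) :
    (@Finset.filter _ p i1 s).card = (@Finset.filter _ p i2 s).card := by
  have : i1 = i2 := Subsingleton.elim _ _
  rw [this]

lemma nuB_rho (F : ℤ[X]) (p : ℕ) :
    nuB (fun (p m : ℕ) => (p : ℤ) ∣ F.eval (m : ℤ)) p = rho F p := by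
  unfold nuB rho
  exact card_inst _ _ _ _

/-- the product of the local densities -/
noncomputable def PP (z : ℕ) (F : ℤ[X]) : ℝ := ∏ p ∈ pz z, (1 - (rho F p : ℝ) / p)

lemma SS_eq_PP (z : ℕ) (F : ℤ[X]) : SS z F = (Vz z)⁻¹ * PP z F := by
  unfold SS PP Vz
  rw [prod_div_distrib]
  have : (Icc 1 z).filter Nat.Prime = pz z := rfl
  rw [this, div_eq_mul_inv, mul_comm]

lemma PP_bounds {a b c : ℤ} (z : ℕ) : 0 ≤ PP z (q2 a b c) ∧ PP z (q2 a b c) ≤ 1 := by
  have h : ∀ p ∈ pz z, 0 ≤ 1 - (rho (q2 a b c) p : ℝ) / p ∧ 1 - (rho (q2 a b c) p : ℝ) / p ≤ 1 := by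
    intro p hp
    have hp0 : (0 : ℝ) < p := by exact_mod_cast (mem_pz.1 hp).2.pos
    have h1 : (rho (q2 a b c) p : ℝ) ≤ p := by
      have : rho (q2 a b c) p ≤ p := by
        unfold rho
        exact (card_filter_le _ _).trans (by simp)
      exact_mod_cast this
    have h2 : (rho (q2 a b c) p : ℝ) / p ≤ 1 := by rw [div_le_one hp0]; exact h1
    have h3 : 0 ≤ (rho (q2 a b c) p : ℝ) / p := by positivity
    constructor <;> linarith
  constructor
  · exact prod_nonneg fun p hp => (h p hp).1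
  · exact prod_le_one (fun p hp => (h p hp).1) fun p hp => (h p hp).2

open Classical in
/-- counting the arguments with rough values -/
theorem count_all (E V : ℕ) : ∀ᶠ x : ℕ in atTop, ∀ z : ℕ, 1 ≤ z → (z : ℝ) ≤ Real.log x ^ E →
    ∀ a b c : ℤ, Int.gcd (Int.gcd a b : ℤ) c = 1 → ∀ n ≤ x,
      |(((Icc 1 n).filter (fun m : ℕ => ∀ p ∈ pz z, ¬ (p : ℤ) ∣ (q2 a b c).eval (m : ℤ))).card : ℝ) -
        n * PP z (q2 a b c)| ≤ x / Real.log x ^ V := by
  obtain ⟨N0, h0⟩ := sys_count 2 (E + 1) (V + 1) (by norm_num)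
  filter_upwards [evt_log_ge (2 ^ (V + 1)), evt_log_ge (2 ^ (E + 1)), evt_log_ge 4,
    evt_log_pow V (1 / 2) (by norm_num), eventually_ge_atTop (N0 ^ 2), eventually_ge_atTop 1]
    with x hLV hLE hL4 hV hxN hx1 z hz hzE a b c hg n hn
  set L := Real.log x with hL
  have hL0 : 0 < L := by linarith
  have hxr : (1 : ℝ) ≤ x := by exact_mod_cast hx1
  have hx0 : (0 : ℝ) < x := by linarith
  have hnx : (n : ℝ) ≤ x := by exact_mod_cast hn
  have hP := PP_bounds (a := a) (b := b) (c := c) z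
  rcases lt_or_ge (n : ℝ) (x / L ^ V) with hsm | hlg
  · -- short
    have h1 : (((Icc 1 n).filter (fun m : ℕ => ∀ p ∈ pz z, ¬ (p : ℤ) ∣ (q2 a b c).eval (m : ℤ))).card : ℝ) ≤ n := by
      have := card_filter_le (Icc 1 n) (fun m : ℕ => ∀ p ∈ pz z, ¬ (p : ℤ) ∣ (q2 a b c).eval (m : ℤ))
      rw [Nat.card_Icc, Nat.add_sub_cancel] at this
      exact_mod_cast this
    have h2 : (0 : ℝ) ≤ (((Icc 1 n).filter (fun m : ℕ => ∀ p ∈ pz z, ¬ (p : ℤ) ∣ (q2 a b c).eval (m : ℤ))).card : ℝ) :=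
      Nat.cast_nonneg _
    have h3 : (n : ℝ) * PP z (q2 a b c) ≤ n := by
      have : (0 : ℝ) ≤ n := Nat.cast_nonneg _
      nlinarith [hP.2]
    have h4 : 0 ≤ (n : ℝ) * PP z (q2 a b c) := mul_nonneg (Nat.cast_nonneg _) hP.1
    rw [abs_le]
    constructor <;> linarith
  · have h12 : (x : ℝ) ^ (1 / 2 : ℝ) ≤ n := by
      refine le_trans ?_ hlg
      rw [le_div_iff₀ (by positivity)]
      calc (x : ℝ) ^ (1 / 2 : ℝ) * L ^ V ≤ (x : ℝ) ^ (1 / 2 : ℝ) * (x : ℝ) ^ (1 / 2 : ℝ) := by gcongr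
        _ = x := by rw [← Real.rpow_add hx0]; norm_num
    have hNn : N0 ≤ n := by
      have h1 : ((N0 : ℝ)) ≤ (x : ℝ) ^ (1 / 2 : ℝ) := by
        rw [← Real.sqrt_eq_rpow]
        apply Real.le_sqrt_of_sq_le
        exact_mod_cast hxN
      exact_mod_cast h1.trans h12
    have hn0 : (0 : ℝ) < n := lt_of_lt_of_le (by positivity) h12
    set M := Real.log n with hM
    have hLM : L ≤ 2 * M := by
      have h1 := Real.log_le_log (by positivity) h12
      rw [Real.log_rpow hx0] at h1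
      linarith
    have hM0 : 0 < M := by linarith
    have hM2 : (2 : ℝ) ^ E ≤ M := by
      have : (2 : ℝ) ^ (E + 1) = 2 * 2 ^ E := by ring
      linarith
    have hzE' : (z : ℝ) ≤ M ^ (E + 1) := by
      refine hzE.trans ?_
      calc L ^ E ≤ (2 * M) ^ E := pow_le_pow_left₀ hL0.le hLM E
        _ = 2 ^ E * M ^ E := by rw [mul_pow]
        _ ≤ M * M ^ E := by gcongr
        _ = M ^ (E + 1) := by ring
    have hper : PerB (fun (p m : ℕ) => (p : ℤ) ∣ (q2 a b c).eval (m : ℤ)) 2 := by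
      refine ⟨fun p m => ?_, fun p hp => ?_⟩
      · have h1 : (p : ℤ) ∣ ((m : ℤ) - ((m % p : ℕ) : ℤ)) := by
          have h2 := Nat.div_add_mod m p
          refine ⟨((m / p : ℕ) : ℤ), ?_⟩
          have h3 : ((p * (m / p) + m % p : ℕ) : ℤ) = (m : ℤ) := by rw [h2]
          push_cast at h3 ⊢
          linarith
        have h2 : (p : ℤ) ∣ (q2 a b c).eval (m : ℤ) - (q2 a b c).eval ((m % p : ℕ) : ℤ) :=
          h1.trans (Polynomial.sub_dvd_eval_sub _ _ _)
        constructor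
        · intro h3
          have := dvd_sub h3 h2
          simpa using this
        · intro h3
          have := dvd_add h2 h3
          simpa using this
      · rw [nuB_rho]
        exact rho_le_two hg p hp
    have key := h0 n hNn z hz hzE' _ hper
    have hnu : ∏ p ∈ pz z, (1 - (nuB (fun (p m : ℕ) => (p : ℤ) ∣ (q2 a b c).eval (m : ℤ)) p : ℝ) / p) =
        PP z (q2 a b c) := by
      unfold PP
      refine prod_congr rfl fun p _ => ?_
      rw [nuB_rho]
    rw [hnu] at key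
    refine (le_of_eq ?_).trans (key.trans ?_)
    · exact congrArg (fun t : ℕ => |(t : ℝ) - n * PP z (q2 a b c)|) (card_inst _ _ _ _)
    rw [div_le_div_iff₀ (by positivity) (by positivity)]
    calc (n : ℝ) * L ^ V ≤ x * (2 * M) ^ V := by gcongr
      _ = x * (2 ^ V * M ^ V) := by rw [mul_pow]
      _ ≤ x * (M * M ^ V) := by
          gcongr
          have : (2 : ℝ) ^ (V + 1) = 2 * 2 ^ V := by ring
          linarith
      _ = x * M ^ (V + 1) := by ring

/-- `log` on the primes -/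
noncomputable def thw (m : ℤ) : ℝ := if m.toNat.Prime then Real.log m else 0

lemma gI_eq (z : ℕ) (m : ℤ) (hm : 1 ≤ m) : gI z m = thw m - (if ∀ p ∈ pz z, ¬ (p : ℤ) ∣ m then (Vz z)⁻¹ else 0) := by
  classical
  unfold gI gt thw lamz
  rw [if_pos hm]
  have h1 : ((m.toNat : ℕ) : ℤ) = m := Int.toNat_of_nonneg (by omega)
  have h2 : ((m.toNat : ℕ) : ℝ) = (m : ℝ) := by exact_mod_cast congrArg (Int.cast : ℤ → ℝ) h1
  have h3 : (∀ p ∈ pz z, ¬ p ∣ m.toNat) ↔ (∀ p ∈ pz z, ¬ (p : ℤ) ∣ m) := by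
    constructor
    · intro h p hp hd
      apply h p hp
      rw [← h1] at hd
      exact_mod_cast hd
    · intro h p hp hd
      apply h p hp
      rw [← h1]
      exact_mod_cast hd
  rw [h2]
  congr 1
  by_cases h : ∀ p ∈ pz z, ¬ (p : ℤ) ∣ m
  · rw [if_pos h, if_pos (h3.2 h)]
  · rw [if_neg h, if_neg (fun h' => h (h3.1 h'))]

/-- monotonicity of the values -/
lemma q2_mono (α : ℕ) (β c : ℤ) (hα : 1 ≤ α) (n m : ℕ) (hn : β.natAbs ≤ n) (hnm : n ≤ m) :
    (q2 α β c).eval (n : ℤ) ≤ (q2 α β c).eval (m : ℤ) := by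
  rw [q2_eval, q2_eval]
  obtain ⟨k, rfl⟩ := Nat.exists_eq_add_of_le hnm
  have h1 : -(n : ℤ) ≤ β := by omega
  push_cast
  have hα' : (1 : ℤ) ≤ α := by exact_mod_cast hα
  have hk : (0 : ℤ) ≤ k := Int.natCast_nonneg _
  have hn0 : (0 : ℤ) ≤ n := Int.natCast_nonneg _
  have h2 : (α : ℤ) * ((n : ℤ) + k) ^ 2 + β * (n + k) + c - (α * (n : ℤ) ^ 2 + β * n + c) =
      k * (α * (2 * n + k) + β) := by ring
  have h3 : (1 : ℤ) * (2 * n + k) ≤ α * (2 * n + k) := mul_le_mul_of_nonneg_right hα' (by omega)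
  have h4 : 0 ≤ (k : ℤ) * (α * (2 * n + k) + β) := mul_nonneg hk (by omega)
  omega

lemma q2_large (α : ℕ) (β c : ℤ) (hα : 1 ≤ α) : ∃ n : ℕ, β.natAbs ≤ n ∧
    2 ≤ (q2 α β c).eval ((n + 1 : ℕ) : ℤ) := by
  refine ⟨β.natAbs + c.natAbs + 2, by omega, ?_⟩
  rw [q2_eval]
  set m : ℤ := ((β.natAbs + c.natAbs + 2 + 1 : ℕ) : ℤ) with hm
  have hα' : (1 : ℤ) ≤ α := by exact_mod_cast hα
  have h1 : -((β.natAbs : ℕ) : ℤ) ≤ β := by omega
  have h2 : -((c.natAbs : ℕ) : ℤ) ≤ c := by omega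
  have h3 : m = (β.natAbs : ℤ) + c.natAbs + 3 := by rw [hm]; push_cast; ring
  have hb : (0 : ℤ) ≤ (β.natAbs : ℤ) := Int.natCast_nonneg _
  have hc : (0 : ℤ) ≤ (c.natAbs : ℤ) := Int.natCast_nonneg _
  have h4 : (1 : ℤ) * m ^ 2 ≤ α * m ^ 2 := mul_le_mul_of_nonneg_right hα' (sq_nonneg _)
  have h5 : -((β.natAbs : ℕ) : ℤ) * m ≤ β * m := mul_le_mul_of_nonneg_right h1 (by omega)
  nlinarith

open Classical in
/-- from the weighted sums to the number of prime values -/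
theorem pv_close (E V : ℕ) : ∀ᶠ x : ℕ in atTop, ∀ (α : ℕ) (β c : ℤ) (z : ℕ), 1 ≤ α →
    (|β| : ℝ) ≤ x / Real.log x ^ (V + 3) → 1 ≤ z → (z : ℝ) ≤ Real.log x ^ E →
    Int.gcd (Int.gcd (α : ℤ) β : ℤ) c = 1 →
    (∀ y ≤ x, |∑ n ∈ Ioc 0 y, gI z (qf α β n + c)| ≤ x / Real.log x ^ (V + 2)) →
    ∀ y ≤ x, |pv (q2 α β c) y - SS z (q2 α β c) * lF (q2 α β c) y| ≤ x / Real.log x ^ V := by
  obtain ⟨N1, hN1⟩ := Vz_inv_small E
  filter_upwards [count_all E (V + 3), eventually_ge_atTop N1, evt_log_ge 100,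
    evt_log_pow (V + 3) 1 (by norm_num), eventually_ge_atTop 1]
    with x hcount hxN1 hL hV hx1 α β c z hα hβ hz hzE hg hS y hy
  rw [Real.rpow_one] at hV
  have hVz := hN1 x hxN1 z hz hzE
  have hcnt := hcount z hz hzE α β c hg
  set L := Real.log x with hLd
  have hL0 : 0 < L := by linarith
  have hL1 : 1 ≤ L := by linarith
  have hxr : (1 : ℝ) ≤ x := by exact_mod_cast hx1
  have hx0 : (0 : ℝ) < x := by linarith
  set F := q2 (α : ℤ) β c with hF
  set n0 := β.natAbs with hn0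
  have hn0r : (n0 : ℝ) ≤ x / L ^ (V + 3) := by
    rw [hn0, Nat.cast_natAbs]
    push_cast
    exact hβ
  set v := (Vz z)⁻¹ with hv
  have hv0 : 0 < v := inv_pos.2 (Vz_pos z)
  obtain ⟨hP0, hP1⟩ := PP_bounds (a := (α : ℤ)) (b := β) (c := c) z
  rw [← hF] at hP0 hP1
  set P := PP z F with hP
  have hSS : SS z F = v * P := SS_eq_PP z F
  have hSS0 : 0 ≤ SS z F := by rw [hSS]; positivity
  have hSSL : SS z F ≤ L := by
    rw [hSS]
    calc v * P ≤ L * 1 := mul_le_mul hVz hP1 hP0 hL0.le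
      _ = L := mul_one L
  have hFe : ∀ n : ℕ, F.eval (n : ℤ) = qf α β n + c := by
    intro n
    rw [hF, q2_eval]
    unfold qf
    ring
  -- the threshold
  have hex := q2_large α β c hα
  rw [← hF] at hex
  set n2 := Nat.find hex with hn2
  have hn2s := Nat.find_spec hex
  rw [← hn2] at hn2s
  have hpos : ∀ n : ℕ, n2 < n → 2 ≤ F.eval (n : ℤ) := by
    intro n hn
    have h1 := q2_mono α β c hα (n2 + 1) n (by omega) (by omega)
    rw [← hF] at h1
    exact hn2s.2.trans h1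
  have hneg : ∀ n : ℕ, n0 < n → n ≤ n2 → F.eval (n : ℤ) < 2 := by
    intro n hn hn3
    obtain ⟨m, rfl⟩ := Nat.exists_eq_add_of_lt (show 0 < n by omega)
    rw [zero_add] at hn hn3 ⊢
    have h1 := Nat.find_min hex (m := m) (by omega)
    rw [not_and] at h1
    exact not_le.1 (h1 (by omega))
  -- the sum of the weights beyond the threshold
  have hT : ∀ u t : ℕ, n2 ≤ u → u ≤ t → t ≤ x → |∑ n ∈ Ioc u t, (thw (F.eval (n : ℤ)) - SS z F)| ≤
      4 * x / L ^ (V + 2) := by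
    intro u t hu hut htx
    have e1 : ∑ n ∈ Ioc u t, (thw (F.eval (n : ℤ)) - SS z F) =
        (∑ n ∈ Ioc 0 t, gI z (qf α β n + c) - ∑ n ∈ Ioc 0 u, gI z (qf α β n + c)) +
        v * (((((Icc 1 t).filter (fun m : ℕ => ∀ p ∈ pz z, ¬ (p : ℤ) ∣ F.eval (m : ℤ))).card : ℝ) - t * P) -
          ((((Icc 1 u).filter (fun m : ℕ => ∀ p ∈ pz z, ¬ (p : ℤ) ∣ F.eval (m : ℤ))).card : ℝ) - u * P)) := by
      have h1 : ∑ n ∈ Ioc 0 t, gI z (qf α β n + c) - ∑ n ∈ Ioc 0 u, gI z (qf α β n + c) =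
          ∑ n ∈ Ioc u t, gI z (qf α β n + c) := by
        rw [sub_eq_iff_eq_add, ← sum_union]
        · congr 1
          ext n
          simp only [mem_Ioc, mem_union]
          omega
        · rw [disjoint_left]
          intro n hn hn2
          rw [mem_Ioc] at hn hn2
          omega
      have h2 : ((((Icc 1 t).filter (fun m : ℕ => ∀ p ∈ pz z, ¬ (p : ℤ) ∣ F.eval (m : ℤ))).card : ℝ)) -
          ((((Icc 1 u).filter (fun m : ℕ => ∀ p ∈ pz z, ¬ (p : ℤ) ∣ F.eval (m : ℤ))).card : ℝ)) =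
          ∑ n ∈ Ioc u t, (if ∀ p ∈ pz z, ¬ (p : ℤ) ∣ F.eval (n : ℤ) then (1 : ℝ) else 0) := by
        rw [sub_eq_iff_eq_add]
        have h3 : ∀ s : Finset ℕ, ((s.filter (fun m : ℕ => ∀ p ∈ pz z, ¬ (p : ℤ) ∣ F.eval (m : ℤ))).card : ℝ) =
            ∑ n ∈ s, (if ∀ p ∈ pz z, ¬ (p : ℤ) ∣ F.eval (n : ℤ) then (1 : ℝ) else 0) := by
          intro s
          rw [← sum_filter, sum_const, nsmul_eq_mul, mul_one]
        rw [h3, h3, ← sum_union]
        · congr 1
          ext n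
          simp only [mem_Ioc, mem_Icc, mem_union]
          omega
        · rw [disjoint_left]
          intro n hn hn2
          rw [mem_Ioc] at hn
          rw [mem_Icc] at hn2
          omega
      have h4 : ((t : ℝ) - u) = ∑ n ∈ Ioc u t, (1 : ℝ) := by
        rw [sum_const, Nat.card_Ioc, nsmul_eq_mul, mul_one, Nat.cast_sub hut]
      rw [h1]
      have h5 : v * (((((Icc 1 t).filter (fun m : ℕ => ∀ p ∈ pz z, ¬ (p : ℤ) ∣ F.eval (m : ℤ))).card : ℝ) - t * P) -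
          ((((Icc 1 u).filter (fun m : ℕ => ∀ p ∈ pz z, ¬ (p : ℤ) ∣ F.eval (m : ℤ))).card : ℝ) - u * P)) =
          v * ((((((Icc 1 t).filter (fun m : ℕ => ∀ p ∈ pz z, ¬ (p : ℤ) ∣ F.eval (m : ℤ))).card : ℝ)) -
          ((((Icc 1 u).filter (fun m : ℕ => ∀ p ∈ pz z, ¬ (p : ℤ) ∣ F.eval (m : ℤ))).card : ℝ))) -
            (t - u) * P) := by ring
      rw [h5, h2, h4, mul_sub, sum_mul, mul_sum, mul_sum, ← sum_sub_distrib, ← sum_add_distrib]
      refine sum_congr rfl fun n hn => ?_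
      rw [mem_Ioc] at hn
      have h6 := hpos n (by omega)
      rw [← hFe, gI_eq z _ (by omega), hSS]
      split_ifs <;> ring
    rw [e1]
    have b1 := hS t htx
    have b2 := hS u (hut.trans htx)
    have b3 := hcnt t htx
    have b4 := hcnt u (hut.trans htx)
    have c1 : |v * (((((Icc 1 t).filter (fun m : ℕ => ∀ p ∈ pz z, ¬ (p : ℤ) ∣ F.eval (m : ℤ))).card : ℝ) - t * P) -
          ((((Icc 1 u).filter (fun m : ℕ => ∀ p ∈ pz z, ¬ (p : ℤ) ∣ F.eval (m : ℤ))).card : ℝ) - u * P))| ≤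
        L * (x / L ^ (V + 3) + x / L ^ (V + 3)) := by
      rw [abs_mul, abs_of_pos hv0]
      apply mul_le_mul hVz _ (abs_nonneg _) hL0.le
      exact (abs_sub _ _).trans (add_le_add b3 b4)
    have c2 : |∑ n ∈ Ioc 0 t, gI z (qf α β n + c) - ∑ n ∈ Ioc 0 u, gI z (qf α β n + c)| ≤
        x / L ^ (V + 2) + x / L ^ (V + 2) := (abs_sub _ _).trans (add_le_add b1 b2)
    refine (abs_add_le _ _).trans ((add_le_add c2 c1).trans (le_of_eq ?_))
    rw [show V + 3 = (V + 2) + 1 by ring, pow_succ L (V + 2)]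
    field_simp
    ring
  -- Abel summation
  have hlog2 : 1 / 2 ≤ Real.log 2 := by have := Real.log_two_gt_d9; linarith
  have hw : ∀ n : ℕ, n2 < n → 0 < Real.log ((F.eval (n : ℤ) : ℤ) : ℝ) ∧
      1 / Real.log ((F.eval (n : ℤ) : ℤ) : ℝ) ≤ 2 := by
    intro n hn
    have h1 : (2 : ℝ) ≤ ((F.eval (n : ℤ) : ℤ) : ℝ) := by exact_mod_cast hpos n hn
    have h2 := Real.log_le_log (by norm_num) h1
    have h3 : 0 < Real.log ((F.eval (n : ℤ) : ℤ) : ℝ) := by linarith
    refine ⟨h3, ?_⟩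
    rw [div_le_iff₀ h3]
    linarith
  have habel : |∑ n ∈ Ioc n2 y, (thw (F.eval (n : ℤ)) - SS z F) *
      (1 / Real.log ((F.eval (n : ℤ) : ℤ) : ℝ))| ≤ 2 * (4 * x / L ^ (V + 2)) := by
    apply abel_anti (fun n => thw (F.eval (n : ℤ)) - SS z F)
      (fun n => 1 / Real.log ((F.eval (n : ℤ) : ℤ) : ℝ)) n2 y 2 (4 * x / L ^ (V + 2)) (by positivity)
      (by norm_num)
    · intro n hn _
      have := (hw n hn).1
      positivity
    · intro n hn _
      apply one_div_le_one_div_of_le (hw n hn).1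
      apply Real.log_le_log
      · have := hpos n hn
        exact_mod_cast (by omega : 0 < F.eval (n : ℤ))
      · have h1 := q2_mono α β c hα n (n + 1) (by omega) (by omega)
        rw [← hF] at h1
        exact_mod_cast h1
    · intro n hn _
      exact (hw n hn).2
    · intro t ht hty
      exact hT n2 t le_rfl ht (hty.trans hy)
  -- splitting
  have hpv : pv F y = ((((Icc 1 y).filter (fun k : ℕ => k ≤ n0)).filter
      (fun k : ℕ => (F.eval (k : ℤ)).toNat.Prime)).card : ℝ) +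
      ∑ n ∈ Ioc n2 y, thw (F.eval (n : ℤ)) * (1 / Real.log ((F.eval (n : ℤ) : ℤ) : ℝ)) := by
    have e1 : ∑ n ∈ Ioc n2 y, thw (F.eval (n : ℤ)) * (1 / Real.log ((F.eval (n : ℤ) : ℤ) : ℝ)) =
        (((Ioc n2 y).filter (fun k : ℕ => (F.eval (k : ℤ)).toNat.Prime)).card : ℝ) := by
      rw [card_filter]
      push_cast
      refine sum_congr rfl fun n hn => ?_
      rw [mem_Ioc] at hn
      have := (hw n hn.1).1
      unfold thw
      split_ifs
      · field_simp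
      · simp
    rw [e1]
    unfold pv
    rw [← Nat.cast_add]
    congr 1
    rw [← card_union_of_disjoint]
    · congr 1
      ext n
      simp only [mem_filter, mem_Icc, mem_union, mem_Ioc]
      constructor
      · rintro ⟨⟨h1, h2⟩, h3⟩
        by_cases h4 : n ≤ n0
        · exact Or.inl ⟨⟨⟨h1, h2⟩, h4⟩, h3⟩
        · right
          refine ⟨⟨?_, h2⟩, h3⟩
          by_contra h5
          have h6 := hneg n (by omega) (by omega)
          have h7 := h3.two_le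
          omega
      · rintro (⟨⟨⟨h1, h2⟩, h4⟩, h3⟩ | ⟨⟨h1, h2⟩, h3⟩)
        · exact ⟨⟨h1, h2⟩, h3⟩
        · exact ⟨⟨by omega, h2⟩, h3⟩
    · rw [disjoint_left]
      intro n hn hn3
      simp only [mem_filter, mem_Icc, mem_Ioc] at hn hn3
      omega
  have hlF : lF F y = ∑ n ∈ ((Icc 1 y).filter (fun k : ℕ => k ≤ n0)).filter
      (fun k : ℕ => 2 ≤ F.eval (k : ℤ)), 1 / Real.log ((F.eval (n : ℤ) : ℤ) : ℝ) +
      ∑ n ∈ Ioc n2 y, 1 / Real.log ((F.eval (n : ℤ) : ℤ) : ℝ) := by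
    unfold lF
    rw [← sum_union]
    · apply sum_congr _ fun _ _ => rfl
      ext n
      simp only [mem_filter, mem_Icc, mem_union, mem_Ioc]
      constructor
      · rintro ⟨⟨h1, h2⟩, h3⟩
        by_cases h4 : n ≤ n0
        · exact Or.inl ⟨⟨⟨h1, h2⟩, h4⟩, h3⟩
        · right
          refine ⟨?_, h2⟩
          by_contra h5
          have h6 := hneg n (by omega) (by omega)
          omega
      · rintro (⟨⟨⟨h1, h2⟩, h4⟩, h3⟩ | ⟨h1, h2⟩)
        · exact ⟨⟨h1, h2⟩, h3⟩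
        · exact ⟨⟨by omega, h2⟩, hpos n h1⟩
    · rw [disjoint_left]
      intro n hn hn3
      simp only [mem_filter, mem_Icc, mem_Ioc] at hn hn3
      omega
  have hcard0 : (((Icc 1 y).filter (fun k : ℕ => k ≤ n0)).card : ℝ) ≤ n0 := by
    have h1 : (Icc 1 y).filter (fun k : ℕ => k ≤ n0) ⊆ Icc 1 n0 := by
      intro k hk
      rw [mem_filter, mem_Icc] at hk
      rw [mem_Icc]
      exact ⟨hk.1.1, hk.2⟩
    have h2 := card_le_card h1
    rw [Nat.card_Icc, Nat.add_sub_cancel] at h2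
    exact_mod_cast h2
  have hA1 : ((((Icc 1 y).filter (fun k : ℕ => k ≤ n0)).filter
      (fun k : ℕ => (F.eval (k : ℤ)).toNat.Prime)).card : ℝ) ≤ n0 := by
    refine le_trans ?_ hcard0
    exact_mod_cast card_filter_le _ _
  have hA2 : 0 ≤ ∑ n ∈ ((Icc 1 y).filter (fun k : ℕ => k ≤ n0)).filter
      (fun k : ℕ => 2 ≤ F.eval (k : ℤ)), 1 / Real.log ((F.eval (n : ℤ) : ℤ) : ℝ) ∧
      ∑ n ∈ ((Icc 1 y).filter (fun k : ℕ => k ≤ n0)).filter
      (fun k : ℕ => 2 ≤ F.eval (k : ℤ)), 1 / Real.log ((F.eval (n : ℤ) : ℤ) : ℝ) ≤ 2 * n0 := by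
    have hterm : ∀ n ∈ ((Icc 1 y).filter (fun k : ℕ => k ≤ n0)).filter
        (fun k : ℕ => 2 ≤ F.eval (k : ℤ)), 0 ≤ 1 / Real.log ((F.eval (n : ℤ) : ℤ) : ℝ) ∧
        1 / Real.log ((F.eval (n : ℤ) : ℤ) : ℝ) ≤ 2 := by
      intro n hn
      rw [mem_filter] at hn
      have h1 : (2 : ℝ) ≤ ((F.eval (n : ℤ) : ℤ) : ℝ) := by exact_mod_cast hn.2
      have h2 := Real.log_le_log (by norm_num) h1
      have h3 : 0 < Real.log ((F.eval (n : ℤ) : ℤ) : ℝ) := by linarith
      refine ⟨by positivity, ?_⟩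
      rw [div_le_iff₀ h3]
      linarith
    refine ⟨sum_nonneg fun n hn => (hterm n hn).1, ?_⟩
    refine (sum_le_sum fun n hn => (hterm n hn).2).trans ?_
    rw [sum_const, nsmul_eq_mul]
    have h1 : ((((Icc 1 y).filter (fun k : ℕ => k ≤ n0)).filter (fun k : ℕ => 2 ≤ F.eval (k : ℤ))).card : ℝ) ≤ n0 := by
      refine le_trans ?_ hcard0
      exact_mod_cast card_filter_le _ _
    linarith
  set A1 := ((((Icc 1 y).filter (fun k : ℕ => k ≤ n0)).filter
      (fun k : ℕ => (F.eval (k : ℤ)).toNat.Prime)).card : ℝ) with hA1d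
  set A2 := ∑ n ∈ ((Icc 1 y).filter (fun k : ℕ => k ≤ n0)).filter
      (fun k : ℕ => 2 ≤ F.eval (k : ℤ)), 1 / Real.log ((F.eval (n : ℤ) : ℤ) : ℝ) with hA2d
  have hA10 : 0 ≤ A1 := Nat.cast_nonneg _
  rw [hpv, hlF]
  have e1 : A1 + ∑ n ∈ Ioc n2 y, thw (F.eval (n : ℤ)) * (1 / Real.log ((F.eval (n : ℤ) : ℤ) : ℝ)) -
      SS z F * (A2 + ∑ n ∈ Ioc n2 y, 1 / Real.log ((F.eval (n : ℤ) : ℤ) : ℝ)) =
      (A1 - SS z F * A2) + ∑ n ∈ Ioc n2 y, (thw (F.eval (n : ℤ)) - SS z F) *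
        (1 / Real.log ((F.eval (n : ℤ) : ℤ) : ℝ)) := by
    have : ∑ n ∈ Ioc n2 y, (thw (F.eval (n : ℤ)) - SS z F) *
        (1 / Real.log ((F.eval (n : ℤ) : ℤ) : ℝ)) =
        ∑ n ∈ Ioc n2 y, thw (F.eval (n : ℤ)) * (1 / Real.log ((F.eval (n : ℤ) : ℤ) : ℝ)) -
        SS z F * ∑ n ∈ Ioc n2 y, 1 / Real.log ((F.eval (n : ℤ) : ℤ) : ℝ) := by
      rw [mul_sum, ← sum_sub_distrib]
      refine sum_congr rfl fun n _ => ?_
      ring
    rw [this]
    ring
  rw [e1]
  have e2 : |A1 - SS z F * A2| ≤ L * (2 * n0) + n0 := by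
    have h1 : SS z F * A2 ≤ L * (2 * n0) := mul_le_mul hSSL hA2.2 hA2.1 hL0.le
    have h2 : 0 ≤ SS z F * A2 := mul_nonneg hSS0 hA2.1
    have h3 : 0 ≤ L * (2 * (n0 : ℝ)) := by positivity
    have h4 : (0 : ℝ) ≤ n0 := Nat.cast_nonneg _
    rw [abs_le]
    constructor <;> linarith
  have e3 : L * (2 * (n0 : ℝ)) + n0 ≤ 3 * x / L ^ (V + 2) := by
    calc L * (2 * (n0 : ℝ)) + n0 ≤ 3 * L * n0 := by
          have h4 : (0 : ℝ) ≤ n0 := Nat.cast_nonneg _
          nlinarith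
      _ ≤ 3 * L * (x / L ^ (V + 3)) := by gcongr
      _ = 3 * x / L ^ (V + 2) := by
          rw [show V + 3 = (V + 2) + 1 by ring, pow_succ L (V + 2)]
          field_simp
  calc _ ≤ |A1 - SS z F * A2| + |∑ n ∈ Ioc n2 y, (thw (F.eval (n : ℤ)) - SS z F) *
        (1 / Real.log ((F.eval (n : ℤ) : ℤ) : ℝ))| := abs_add_le _ _
    _ ≤ 3 * x / L ^ (V + 2) + 2 * (4 * x / L ^ (V + 2)) := add_le_add (e2.trans e3) habel
    _ = 11 * x / L ^ (V + 2) := by ring
    _ ≤ x / L ^ V := by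
        rw [div_le_div_iff₀ (by positivity) (by positivity), pow_add]
        calc 11 * (x : ℝ) * L ^ V = x * (L ^ V * 11) := by ring
          _ ≤ x * (L ^ V * L ^ 2) := by
              gcongr
              nlinarith

end Pool.Agent.W81.R1
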